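import Pool.Agent.helper35.MR.SpecB

/-! # Project mr, module SAF: assembly of the case `hyp (s+1) = 0` -/

set_option autoImplicit false

open Finset

namespace Pool.Agent.helper35.MR

open Pool.Agent.RRank

theorem SAF_few_comp {K ι κ : Type} [Field K] {μ μ' : ℕ} (hμ : μ ≤ μ') (g : κ → K) (h : ι → κ)
    (hg : Few μ g) : Few μ' (fun x => g (h x)) := by
  have hs : Set.range (fun x => g (h x)) ⊆ Set.range g := by
    rintro _ ⟨x, rfl⟩
    exact ⟨h x, rfl⟩
  exact ⟨hg.1.subset hs, (Set.ncard_le_ncard hs hg.1).trans (hg.2.trans hμ)⟩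

theorem SAF_mk4 {Q : Fin 4 → Type} (x : (α : Fin 4) → Q α) : mk4 (x 0) (x 1) (x 2) (x 3) = x := by
  funext α
  fin_cases α <;> rfl

/-- the index set of the factors -/
abbrev SAF_J (s : ℕ) : Type := Unit ⊕ ((Fin 8 × Fin (s ^ 3)) ⊕ (Fin 6 × Fin (s ^ 2)))

theorem SAF_card (s : ℕ) : Fintype.card (SAF_J s) = 1 + (8 * s ^ 3 + 6 * s ^ 2) := by
  simp [SAF_J]

theorem SAF_rank0 {K : Type} [Field K] {Q : Fin 4 → Type} (T : ((α : Fin 4) → Q α) → K)
    (h : Few 0 T) : rank (slices 4) T = 0 := by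
  have h1 : IsEmpty ((α : Fin 4) → Q α) := by
    by_contra hne
    rw [not_isEmpty_iff] at hne
    obtain ⟨x⟩ := hne
    have h2 : (Set.range T).ncard = 0 := Nat.le_zero.1 h.2
    rw [Set.ncard_eq_zero h.1] at h2
    have h3 : T x ∈ Set.range T := ⟨x, rfl⟩
    rw [h2] at h3
    exact h3
  have h2 : SumOf (slices 4) T 0 := ⟨fun i => i.elim0, fun i => i.elim0, fun x => h1.elim x⟩
  have h3 := rank_le_of_sumOf h2
  exact le_antisymm (by exact_mod_cast h3) bot_le

theorem SAF (hEXP : EXP_stmt) (hJC : JC_stmt) (hP1 : P1_stmt) (hTR : TR_stmt) (hCMR : CMR_stmt)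
    (hFRM : FRM_stmt) (hRG3 : RG3_stmt) (hFS4 : FS4_stmt) : SAF_stmt := by
  intro m l s hl
  set μ := m ^ ((s + 1) ^ 4) + m with hμ
  set J := 1 + (8 * s ^ 3 + 6 * s ^ 2) with hJ
  set N := 4 * l with hN
  have hN8 : 8 ≤ N := by omega
  obtain ⟨G, hG⟩ := hP1 4 (μ ^ J) N (by norm_num)
  refine ⟨G, fun K _ Q T hfew hne h0 hrank => ?_⟩
  obtain ⟨x₀, y₀, z₀, w₀, hne⟩ := hne
  obtain ⟨a, a', b, b', c, c', d, d', t, u, v, A, B, C, D, E, F, heq, hvals⟩ :=
    hEXP K (Q 0) (Q 1) (Q 2) (Q 3) (fun x y z w => T (mk4 x y z w)) s x₀ y₀ z₀ w₀ hne h0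
  obtain ⟨va, va', vb, vb', vc, vc', vd, vd', vA, vB, vC, vD, vE, vF⟩ := hvals m
    (SAF_few_comp le_rfl T (fun q : Q 0 × Q 1 × Q 2 × Q 3 => mk4 q.1 q.2.1 q.2.2.1 q.2.2.2) hfew)
  have hμ1 : m ^ ((s + 1) ^ 4) ≤ μ := Nat.le_add_right _ _
  have hμ2 : m ≤ μ := Nat.le_add_left _ _
  -- the factors
  let P8 : Fin 8 → Fin (s ^ 3) → ((α : Fin 4) → Q α) → K :=
    ![fun n x => a n (x 0), fun n x => a' n (x 1) (x 2) (x 3), fun n x => b n (x 1),
      fun n x => b' n (x 0) (x 2) (x 3), fun n x => c n (x 2), fun n x => c' n (x 0) (x 1) (x 3),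
      fun n x => d n (x 3), fun n x => d' n (x 0) (x 1) (x 2)]
  let P6 : Fin 6 → Fin (s ^ 2) → ((α : Fin 4) → Q α) → K :=
    ![fun n x => A n (x 0) (x 1), fun n x => B n (x 2) (x 3), fun n x => C n (x 0) (x 2),
      fun n x => D n (x 1) (x 3), fun n x => E n (x 0) (x 3), fun n x => F n (x 1) (x 2)]
  let Φ : SAF_J s → ((α : Fin 4) → Q α) → K :=
    Sum.elim (fun _ => T) (Sum.elim (fun p => P8 p.1 p.2) (fun p => P6 p.1 p.2))
  have hΦ : ∀ j, Few μ (Φ j) := by
    rintro (_ | ⟨k, n⟩ | ⟨k, n⟩)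
    · exact SAF_few_comp hμ2 T id hfew
    · fin_cases k
      · exact SAF_few_comp hμ1 (a n) (fun x : (α : Fin 4) → Q α => x 0) (va n)
      · exact SAF_few_comp hμ1 _ (fun x : (α : Fin 4) → Q α => (x 1, x 2, x 3)) (va' n)
      · exact SAF_few_comp hμ1 (b n) (fun x : (α : Fin 4) → Q α => x 1) (vb n)
      · exact SAF_few_comp hμ1 _ (fun x : (α : Fin 4) → Q α => (x 0, x 2, x 3)) (vb' n)
      · exact SAF_few_comp hμ1 (c n) (fun x : (α : Fin 4) → Q α => x 2) (vc n)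
      · exact SAF_few_comp hμ1 _ (fun x : (α : Fin 4) → Q α => (x 0, x 1, x 3)) (vc' n)
      · exact SAF_few_comp hμ1 (d n) (fun x : (α : Fin 4) → Q α => x 3) (vd n)
      · exact SAF_few_comp hμ1 _ (fun x : (α : Fin 4) → Q α => (x 0, x 1, x 2)) (vd' n)
    · fin_cases k
      · exact SAF_few_comp hμ1 _ (fun x : (α : Fin 4) → Q α => (x 0, x 1)) (vA n)
      · exact SAF_few_comp hμ1 _ (fun x : (α : Fin 4) → Q α => (x 2, x 3)) (vB n)
      · exact SAF_few_comp hμ1 _ (fun x : (α : Fin 4) → Q α => (x 0, x 2)) (vC n)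
      · exact SAF_few_comp hμ1 _ (fun x : (α : Fin 4) → Q α => (x 1, x 3)) (vD n)
      · exact SAF_few_comp hμ1 _ (fun x : (α : Fin 4) → Q α => (x 0, x 3)) (vE n)
      · exact SAF_few_comp hμ1 _ (fun x : (α : Fin 4) → Q α => (x 1, x 2)) (vF n)
  have hcard : Fintype.card (SAF_J s) = J := SAF_card s
  let ε : SAF_J s ≃ Fin J := Fintype.equivFinOfCardEq hcard
  obtain ⟨col, val, hval⟩ := hJC K ((α : Fin 4) → Q α) J μ (fun j => Φ (ε.symm j))
    (fun j => hΦ _)
  have hval' : ∀ j x, Φ j x = val (ε j) (col x) := fun j x => by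
    rw [← hval, Equiv.symm_apply_apply]
  obtain ⟨V, hV, hLow, f, hf⟩ := hG K (val (ε (.inl ()))) Q col (by
    have h1 : (fun x => val (ε (.inl ())) (col x)) = T := by
      funext x
      rw [← hval']
      rfl
    rw [h1]
    exact hrank)
  have hOT : ∀ j, OT (fun x => val (ε j) (V x)) := fun j x y hxy => by
    show val (ε j) (V x) = val (ε j) (V y)
    rw [hV x y hxy]
  have hDp : ∀ (j : SAF_J s) (I : Finset (Fin 4)),
      (∀ x y : (α : Fin 4) → Q α, (∀ α ∈ I, x α = y α) → Φ j x = Φ j y) →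
      Dp I (fun x => val (ε j) (V x)) := fun j I hI =>
    hTR (μ ^ J) N hN8 V hV Q col f hf K (val (ε j)) I (fun x y hxy => by
      rw [← hval', ← hval', hI x y hxy])
  -- every tuple has the order type of a tuple of positions
  have hpt : ∀ x : Fin 4 → ℤ, ∃ q : (α : Fin 4) → Q α, ∀ j, val (ε j) (V x) = Φ j q := by
    intro x
    obtain ⟨x', -, hx', -, -⟩ := hCMR x x
    let i : Fin 4 → Fin N := fun α => ⟨x' α, (x' α).2.trans_le hN8⟩
    refine ⟨fun α => f α (i α), fun j => ?_⟩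
    rw [hval', hf, hV x _ hx']
  have hform := hFRM K (s ^ 3) (s ^ 2) (s ^ 2) (s ^ 2) (s ^ 2) (s ^ 2) (s ^ 2)
    (fun x => val (ε (.inl ())) (V x))
    (fun n x => val (ε (.inr (.inl (0, n)))) (V x)) (fun n x => val (ε (.inr (.inl (1, n)))) (V x))
    (fun n x => val (ε (.inr (.inl (2, n)))) (V x)) (fun n x => val (ε (.inr (.inl (3, n)))) (V x))
    (fun n x => val (ε (.inr (.inl (4, n)))) (V x)) (fun n x => val (ε (.inr (.inl (5, n)))) (V x))
    (fun n x => val (ε (.inr (.inl (6, n)))) (V x)) (fun n x => val (ε (.inr (.inl (7, n)))) (V x))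
    (fun n x => val (ε (.inr (.inr (0, n)))) (V x)) (fun n x => val (ε (.inr (.inr (1, n)))) (V x))
    (fun n x => val (ε (.inr (.inr (2, n)))) (V x)) (fun n x => val (ε (.inr (.inr (3, n)))) (V x))
    (fun n x => val (ε (.inr (.inr (4, n)))) (V x)) (fun n x => val (ε (.inr (.inr (5, n)))) (V x))
    t u v
    (fun n => ⟨hOT _, hDp _ {0} fun x y h => by
      show a n (x 0) = a n (y 0)
      rw [h 0 (by simp)]⟩)
    (fun n => ⟨hOT _, hDp _ {1, 2, 3} fun x y h => by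
      show a' n (x 1) (x 2) (x 3) = a' n (y 1) (y 2) (y 3)
      rw [h 1 (by simp), h 2 (by simp), h 3 (by simp)]⟩)
    (fun n => ⟨hOT _, hDp _ {1} fun x y h => by
      show b n (x 1) = b n (y 1)
      rw [h 1 (by simp)]⟩)
    (fun n => ⟨hOT _, hDp _ {0, 2, 3} fun x y h => by
      show b' n (x 0) (x 2) (x 3) = b' n (y 0) (y 2) (y 3)
      rw [h 0 (by simp), h 2 (by simp), h 3 (by simp)]⟩)
    (fun n => ⟨hOT _, hDp _ {2} fun x y h => by
      show c n (x 2) = c n (y 2)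
      rw [h 2 (by simp)]⟩)
    (fun n => ⟨hOT _, hDp _ {0, 1, 3} fun x y h => by
      show c' n (x 0) (x 1) (x 3) = c' n (y 0) (y 1) (y 3)
      rw [h 0 (by simp), h 1 (by simp), h 3 (by simp)]⟩)
    (fun n => ⟨hOT _, hDp _ {3} fun x y h => by
      show d n (x 3) = d n (y 3)
      rw [h 3 (by simp)]⟩)
    (fun n => ⟨hOT _, hDp _ {0, 1, 2} fun x y h => by
      show d' n (x 0) (x 1) (x 2) = d' n (y 0) (y 1) (y 2)
      rw [h 0 (by simp), h 1 (by simp), h 2 (by simp)]⟩)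
    (fun n => ⟨hOT _, hDp _ {0, 1} fun x y h => by
      show A n (x 0) (x 1) = A n (y 0) (y 1)
      rw [h 0 (by simp), h 1 (by simp)]⟩)
    (fun n => ⟨hOT _, hDp _ {2, 3} fun x y h => by
      show B n (x 2) (x 3) = B n (y 2) (y 3)
      rw [h 2 (by simp), h 3 (by simp)]⟩)
    (fun n => ⟨hOT _, hDp _ {0, 2} fun x y h => by
      show C n (x 0) (x 2) = C n (y 0) (y 2)
      rw [h 0 (by simp), h 2 (by simp)]⟩)
    (fun n => ⟨hOT _, hDp _ {1, 3} fun x y h => by
      show D n (x 1) (x 3) = D n (y 1) (y 3)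
      rw [h 1 (by simp), h 3 (by simp)]⟩)
    (fun n => ⟨hOT _, hDp _ {0, 3} fun x y h => by
      show E n (x 0) (x 3) = E n (y 0) (y 3)
      rw [h 0 (by simp), h 3 (by simp)]⟩)
    (fun n => ⟨hOT _, hDp _ {1, 2} fun x y h => by
      show F n (x 1) (x 2) = F n (y 1) (y 2)
      rw [h 1 (by simp), h 2 (by simp)]⟩)
    (by
      intro x
      obtain ⟨q, hq⟩ := hpt x
      simp only [hq]
      have h1 := heq (q 0) (q 1) (q 2) (q 3)
      simp only [SAF_mk4] at h1
      exact h1)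
  obtain ⟨F₁, F₂, F₃, hF⟩ := hform
  obtain ⟨x, y, z, w, hfull⟩ := hRG3 K (fun x => val (ε (.inl ())) (V x)) (hOT _) F₁ F₂ F₃ hF hLow
    l hl
  classical
  let X : (α : Fin 4) → Finset (Q α) := mk4
    (Finset.univ.image fun i => f 0 (x i)) (Finset.univ.image fun i => f 1 (y i))
    (Finset.univ.image fun i => f 2 (z i)) (Finset.univ.image fun i => f 3 (w i))
  have hXc : ∀ α, (X α).card ≤ l := by
    intro α
    fin_cases α
    · exact Finset.card_image_le.trans (by simp)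
    · exact Finset.card_image_le.trans (by simp)
    · exact Finset.card_image_le.trans (by simp)
    · exact Finset.card_image_le.trans (by simp)
  refine ⟨X, hXc, ?_⟩
  have h1 := hFS4 K Q T (Fin l) (fun i => f 0 (x i)) (fun i => f 1 (y i)) (fun i => f 2 (z i))
    (fun i => f 3 (w i)) X (fun i => Finset.mem_image_of_mem _ (Finset.mem_univ i))
    (fun i => Finset.mem_image_of_mem _ (Finset.mem_univ i))
    (fun i => Finset.mem_image_of_mem _ (Finset.mem_univ i))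
    (fun i => Finset.mem_image_of_mem _ (Finset.mem_univ i)) (by
      have h2 : (fun i j k m : Fin l => T (mk4 (f 0 (x i)) (f 1 (y j)) (f 2 (z k)) (f 3 (w m)))) =
          fun i j k m : Fin l => val (ε (.inl ())) (V ![((x i : ℕ) : ℤ), ((y j : ℕ) : ℤ),
            ((z k : ℕ) : ℤ), ((w m : ℕ) : ℤ)]) := by
        funext i j k m
        have h3 : mk4 (f 0 (x i)) (f 1 (y j)) (f 2 (z k)) (f 3 (w m)) =
            fun α => f α ((![x i, y j, z k, w m] : Fin 4 → Fin N) α) := by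
          funext α
          fin_cases α <;> rfl
        have h4 : T (mk4 (f 0 (x i)) (f 1 (y j)) (f 2 (z k)) (f 3 (w m))) =
            val (ε (.inl ())) (col (mk4 (f 0 (x i)) (f 1 (y j)) (f 2 (z k)) (f 3 (w m)))) :=
          hval' (.inl ()) _
        rw [h4, h3, hf]
        congr 2
        funext α
        fin_cases α <;> rfl
      rw [h2]
      exact hfull)
  simpa using h1

end Pool.Agent.helper35.MR
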